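import Pool.Agent.Helper11.GeoHol

/-!
# Ramified covers of powers of elliptic curves of rank one

Let `p ≡ 5 (mod 8)` be a prime, `a` an integer with `a² + 4p` prime, and suppose that the curve
`C : t² = s⁴ + a s² - p` has a rational point whose `s`-coordinate is a quotient of odd integers
(for example `p = 5`, `a = -3`, with the point `(3, 7)`).

Arithmetic input (`Coherent`): for finitely many rational points `(sᵢ, tᵢ)` of `C` there is a prime
`l ≡ 3 (mod 4)` which divides the numerator or the denominator of each `sᵢ`, and the numerator of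
at least one. Indeed `(sᵢ², sᵢ tᵢ) = mᵢ G` on `y² = x³ + a x² - p x`, and with `k = min v₂(mᵢ)` the
numerator `S` of the square root of `x(2^k G)` satisfies `(-1/S) = -1`; take a prime `l ∣ S` with
`(-1/l) = -1`.
-/

open AlgebraicGeometry CategoryTheory

namespace Pool.Agent.Results.MP_2ae8fe_ag.CoversOfPowers

/-- The set `V(ℚ)` of rational points of a scheme `V` over `ℚ`, as a set of points of `V`: the
images of the sections of the structure morphism. -/
def rationalPoints {V : Scheme.{0}} (f : V ⟶ Spec (CommRingCat.of ℚ)) : Set V :=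
  {P | ∃ s : Spec (CommRingCat.of ℚ) ⟶ V, s ≫ f = 𝟙 _ ∧ s (IsLocalRing.closedPoint ℚ) = P}

/-- The subring of a field `K` generated by the elements `1 / (1 + g²)`, `g ∈ K`, `g² ≠ -1`. -/
def H (K : Type*) [Field K] : Subring K :=
  Subring.closure {x | ∃ g : K, 1 + g ^ 2 ≠ 0 ∧ x = 1 / (1 + g ^ 2)}

lemma H_le (K : Type*) [Field K] : H K ≤ Pool.Agent.Helper11.hol K := by
  unfold H Pool.Agent.Helper11.hol
  apply Subring.closure_mono
  rintro x ⟨g, -, rfl⟩
  exact ⟨g, one_div _⟩

/-- **Main theorem.** Let `p ≡ 5 (mod 8)` be a positive prime and `a` an integer such that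
`a² + 4p` is prime and `t² = s⁴ + a s² - p` has a rational point `s = u/v` with `u`, `v` odd. Let
`V` be an integral scheme over `ℚ` with function field `K`, let `n ≥ 1` and `sᵢ, tᵢ ∈ K`
(`i = 1, …, n`) with `tᵢ² = sᵢ⁴ + a sᵢ² - p`. If there are `z ∈ K` and `κ₀, …, κₙ ∈ H(K)` with
`z² + 1 = ∑ κᵢ sᵢ/(1 + sᵢ²) + κ₀ ∏ sᵢ²/(1 + sᵢ²)`, then `V(ℚ)` is not Zariski dense in `V`. -/
theorem result (a p : ℤ) (hp : Prime p) (hp0 : 0 < p) (hp8 : p % 8 = 5)
    (hq : Prime (a ^ 2 + 4 * p))
    (hC : ∃ u v w : ℤ, Odd u ∧ Odd v ∧ w ^ 2 = u ^ 4 + a * u ^ 2 * v ^ 2 - p * v ^ 4)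
    (V : Scheme.{0}) [IsIntegral V] (f : V ⟶ Spec (CommRingCat.of ℚ)) (n : ℕ) (hn : 1 ≤ n)
    (s t : Fin n → V.functionField)
    (hst : ∀ i, t i ^ 2 = s i ^ 4 + (a : V.functionField) * s i ^ 2 - (p : V.functionField))
    (z κ₀ : V.functionField) (κ : Fin n → V.functionField) (hκ₀ : κ₀ ∈ H V.functionField)
    (hκ : ∀ i, κ i ∈ H V.functionField)
    (hz : z ^ 2 + 1 =
      ∑ i, κ i * (s i / (1 + s i ^ 2)) + κ₀ * ∏ i, (s i ^ 2 / (1 + s i ^ 2))) :
    ¬ Dense (rationalPoints f) := by
  intro hdense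
  obtain ⟨u, v, w, ⟨u', hu⟩, ⟨v', hv⟩, hw⟩ := hC
  have hpar : Pool.Agent.Helper11.Par a p :=
    ⟨Int.prime_iff_natAbs_prime.mp hp, hp0, hp8, Int.prime_iff_natAbs_prime.mp hq⟩
  have hne : Nonempty (Fin n) := ⟨⟨0, hn⟩⟩
  obtain ⟨R, _, ι, b, c, φ, hinj, hb, hc, hφ⟩ :=
    Pool.Agent.Helper11.exists_specialisation_hol' f
      (α := Option (Fin n × Fin 4)) (β := Option (Fin n))
      (fun o => match o with
        | none => z
        | some (i, 0) => s i
        | some (i, 1) => t i
        | some (i, 2) => s i / (1 + s i ^ 2)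
        | some (i, 3) => s i ^ 2 / (1 + s i ^ 2))
      (fun o => match o with
        | none => κ₀
        | some i => κ i)
      (by
        rintro (_ | i)
        · exact H_le _ hκ₀
        · exact H_le _ (hκ i)) hdense
  have bz : ι (b none) = z := hb none
  have bs : ∀ i, ι (b (some (i, 0))) = s i := fun i => hb (some (i, 0))
  have bt : ∀ i, ι (b (some (i, 1))) = t i := fun i => hb (some (i, 1))
  have bσ : ∀ i, ι (b (some (i, 2))) = s i / (1 + s i ^ 2) := fun i => hb (some (i, 2))
  have bρ : ∀ i, ι (b (some (i, 3))) = s i ^ 2 / (1 + s i ^ 2) := fun i => hb (some (i, 3))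
  have c0 : ι (c none) = κ₀ := hc none
  have c1 : ∀ i, ι (c (some i)) = κ i := fun i => hc (some i)
  -- no `sᵢ` is a square root of `-1`
  have hs0 : ∀ i, 1 + s i ^ 2 ≠ 0 := by
    intro i h0
    have h1 : 1 + b (some (i, 0)) ^ 2 = 0 := by
      apply hinj
      rw [map_add, map_one, map_pow, bs, h0, map_zero]
    have h2 := congrArg φ h1
    rw [map_add, map_one, map_pow, map_zero] at h2
    nlinarith [sq_nonneg (φ (b (some (i, 0))))]
  have hs1 : ∀ i, 1 + φ (b (some (i, 0))) ^ 2 ≠ 0 := fun i => by positivity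
  have e1 : ∀ i, b (some (i, 1)) ^ 2 = b (some (i, 0)) ^ 4 + (a : R) * b (some (i, 0)) ^ 2 -
      (p : R) := by
    intro i
    apply hinj
    simp only [map_pow, map_sub, map_add, map_mul, map_intCast, bs, bt]
    exact hst i
  have e2 : ∀ i, φ (b (some (i, 2))) = φ (b (some (i, 0))) / (1 + φ (b (some (i, 0))) ^ 2) := by
    intro i
    have h1 : b (some (i, 2)) * (1 + b (some (i, 0)) ^ 2) = b (some (i, 0)) := by
      apply hinj
      rw [map_mul, map_add, map_one, map_pow, bσ, bs, div_mul_cancel₀ _ (hs0 i)]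
    have h2 := congrArg φ h1
    rw [map_mul, map_add, map_one, map_pow] at h2
    rw [eq_div_iff (hs1 i)]
    exact h2
  have e3 : ∀ i, φ (b (some (i, 3))) = φ (b (some (i, 0))) ^ 2 / (1 + φ (b (some (i, 0))) ^ 2) := by
    intro i
    have h1 : b (some (i, 3)) * (1 + b (some (i, 0)) ^ 2) = b (some (i, 0)) ^ 2 := by
      apply hinj
      rw [map_mul, map_add, map_one, map_pow, bρ, bs, div_mul_cancel₀ _ (hs0 i)]
    have h2 := congrArg φ h1
    rw [map_mul, map_add, map_one, map_pow] at h2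
    rw [eq_div_iff (hs1 i)]
    exact h2
  have e4 : b none ^ 2 + 1 =
      ∑ i, c (some i) * b (some (i, 2)) + c none * ∏ i, b (some (i, 3)) := by
    apply hinj
    rw [map_add, map_add, map_pow, map_one, map_sum, map_mul, map_prod, bz, c0]
    simp only [map_mul, c1, bσ, bρ]
    exact hz
  refine Pool.Agent.Helper11.arith_powers hpar (u := u) (v := v) (w := w) (by omega) (by omega) hw
    (s := fun i => φ (b (some (i, 0)))) (t := fun i => φ (b (some (i, 1)))) ?_
    (κ := fun i => φ (c (some i))) (κ₀ := φ (c none)) (z := φ (b none)) ?_ ?_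
  · intro i
    have h1 := congrArg φ (e1 i)
    simpa only [map_pow, map_sub, map_add, map_mul, map_intCast] using h1
  · intro l hl hl3
    exact ⟨fun i => hφ (some i) l hl hl3, hφ none l hl hl3⟩
  · have h1 := congrArg φ e4
    rw [map_add, map_add, map_pow, map_one, map_sum, map_mul, map_prod] at h1
    simp only [map_mul, e2, e3] at h1
    exact h1

end Pool.Agent.Results.MP_2ae8fe_ag.CoversOfPowers
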