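import Mathlib

/-!
# Non-density of rational points over congruent number curves of positive rank

Norms from `ℚ(√2)` and `2`-descent on `E_n : y² = x³ - n² x`.

If `(x, y)` is a rational point of `E_n` with `y ≠ 0` and `y = u² - 2 v²`, then the denominator
`D` of the abscissa root of the doubled point has even valuation at every prime `q ≡ ±3 (mod 8)`
(`good_den`).  For `X² - n D² = Y²`, `X² + n D² = Z²` the classical descent gives coprime `f, g`
with `f g (f + g) (f - g) = n (D/2)²`; the four factors are `α a², β b², γ c², δ d²` and each of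
`a, b, c, d` again has even valuations at these primes, so odd squares among them are
`1 (mod 16)`.  Admissibility of `n` leaves only `α = γ = δ = 1`, and `(a, d, c, b)` is a smaller
solution (`descent`).
-/

open AlgebraicGeometry CategoryTheory

namespace Pool.Agent.Results.MP_2ae8fe_ag.PositiveRankBase

/-- `m` has even valuation at every prime inert in `ℚ(√2)`. -/
def Good (m : ℕ) : Prop :=
  ∀ q : ℕ, q.Prime → (q % 8 = 3 ∨ q % 8 = 5) → Even (padicValNat q m)

theorem Good.of_coprime_mul {a b : ℕ} (ha : a ≠ 0) (hb : b ≠ 0) (hab : Nat.Coprime a b)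
    (h : Good (a * b)) : Good a ∧ Good b := by
  constructor
  · intro q hq hq8
    have := Fact.mk hq
    have h1 := h q hq hq8
    rw [padicValNat.mul ha hb] at h1
    by_cases hqa : q ∣ a
    · have hqb : ¬ q ∣ b := fun hqb => hq.one_lt.ne' (Nat.eq_one_of_dvd_coprimes hab hqa hqb)
      rw [padicValNat.eq_zero_of_not_dvd hqb] at h1
      simpa using h1
    · rw [padicValNat.eq_zero_of_not_dvd hqa]
      exact Even.zero
  · intro q hq hq8
    have := Fact.mk hq
    have h1 := h q hq hq8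
    rw [padicValNat.mul ha hb] at h1
    by_cases hqb : q ∣ b
    · have hqa : ¬ q ∣ a := fun hqa => hq.one_lt.ne' (Nat.eq_one_of_dvd_coprimes hab hqa hqb)
      rw [padicValNat.eq_zero_of_not_dvd hqa] at h1
      simpa using h1
    · rw [padicValNat.eq_zero_of_not_dvd hqb]
      exact Even.zero

theorem Good.mod8 : ∀ m : ℕ, m % 2 = 1 → Good m → m % 8 = 1 ∨ m % 8 = 7 := by
  intro m
  induction m using Nat.strong_induction_on with
  | _ m ih =>
    intro hodd hg
    have hm0 : m ≠ 0 := by omega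
    by_cases hm1 : m = 1
    · left; subst hm1; rfl
    · set q := m.minFac with hqdef
      have hq : q.Prime := Nat.minFac_prime hm1
      have := Fact.mk hq
      have hqm : q ∣ m := Nat.minFac_dvd m
      obtain ⟨m', hm'⟩ := hqm
      have hm'0 : m' ≠ 0 := by rintro rfl; simp at hm'; exact hm0 hm'
      have hqodd : q % 2 = 1 := by
        rcases Nat.mod_two_eq_zero_or_one q with h | h
        · exfalso
          have : m % 2 = 0 := by rw [hm', Nat.mul_mod, h]; simp
          omega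
        · exact h
      have hm'odd : m' % 2 = 1 := by
        rcases Nat.mod_two_eq_zero_or_one m' with h | h
        · exfalso
          have : m % 2 = 0 := by rw [hm', Nat.mul_mod, h]; simp
          omega
        · exact h
      have hlt : m' < m := by
        rw [hm']
        have := hq.two_le
        nlinarith [Nat.pos_of_ne_zero hm'0]
      by_cases hin : q % 8 = 3 ∨ q % 8 = 5
      · -- inert prime: divides twice
        have hev := hg q hq hin
        rw [hm', padicValNat.mul hq.ne_zero hm'0, padicValNat_self] at hev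
        have hqm' : q ∣ m' := by
          by_contra hcon
          rw [padicValNat.eq_zero_of_not_dvd hcon] at hev
          simp at hev
        obtain ⟨m'', hm''⟩ := hqm'
        have hm''0 : m'' ≠ 0 := by rintro rfl; simp at hm''; exact hm'0 hm''
        have hm''odd : m'' % 2 = 1 := by
          rcases Nat.mod_two_eq_zero_or_one m'' with h | h
          · exfalso
            have : m' % 2 = 0 := by rw [hm'', Nat.mul_mod, h]; simp
            omega
          · exact h
        have hlt' : m'' < m := by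
          have : m'' ≤ m' := by rw [hm'']; exact Nat.le_mul_of_pos_left _ hq.pos
          omega
        have hg'' : Good m'' := by
          intro r hr hr8
          have := Fact.mk hr
          have h1 := hg r hr hr8
          rw [hm', hm'', padicValNat.mul hq.ne_zero (mul_ne_zero hq.ne_zero hm''0),
            padicValNat.mul hq.ne_zero hm''0] at h1
          have h2 : Even (2 * padicValNat r q) := even_two_mul _
          have h3 : padicValNat r q + (padicValNat r q + padicValNat r m'') =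
            2 * padicValNat r q + padicValNat r m'' := by ring
          rw [h3] at h1
          exact (Nat.even_add.mp h1).mp h2
        have := ih m'' hlt' hm''odd hg''
        have hqq : q * q % 8 = 1 := by
          rcases hin with h | h <;> simp [Nat.mul_mod, h]
        have : m % 8 = m'' % 8 := by
          rw [hm', hm'', ← mul_assoc, Nat.mul_mod, hqq]; simp
        omega
      · -- split prime
        have hq8 : q % 8 = 1 ∨ q % 8 = 7 := by
          omega
        have hg' : Good m' := by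
          intro r hr hr8
          have := Fact.mk hr
          have h1 := hg r hr hr8
          rw [hm', padicValNat.mul hq.ne_zero hm'0] at h1
          have : padicValNat r q = 0 := by
            apply padicValNat.eq_zero_of_not_dvd
            intro hrq
            rw [Nat.prime_dvd_prime_iff_eq hr hq] at hrq
            rw [hrq] at hr8
            exact hin hr8
          rw [this, zero_add] at h1
          exact h1
        have h2 := ih m' hlt hm'odd hg'
        rw [hm', Nat.mul_mod]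
        rcases hq8 with h | h <;> rcases h2 with h' | h' <;> simp [h, h']

theorem Good.sq_mod16 {a : ℕ} (hg : Good a) :
    (a % 2 = 1 ∧ a ^ 2 % 16 = 1) ∨ (a % 2 = 0 ∧ (a ^ 2 % 16 = 0 ∨ a ^ 2 % 16 = 4)) := by
  rcases Nat.mod_two_eq_zero_or_one a with h | h
  · right
    refine ⟨h, ?_⟩
    have : a % 16 = 0 ∨ a % 16 = 2 ∨ a % 16 = 4 ∨ a % 16 = 6 ∨ a % 16 = 8 ∨ a % 16 = 10 ∨
      a % 16 = 12 ∨ a % 16 = 14 := by omega
    rw [Nat.pow_mod]
    rcases this with h | h | h | h | h | h | h | h <;> simp [h]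
  · left
    refine ⟨h, ?_⟩
    have h8 := Good.mod8 a h hg
    have : a % 16 = 1 ∨ a % 16 = 9 ∨ a % 16 = 7 ∨ a % 16 = 15 := by omega
    rw [Nat.pow_mod]
    rcases this with h | h | h | h <;> simp [h]

theorem sqfree_unique {s t x y : ℕ} (hs : Squarefree s) (ht : Squarefree t)
    (hx : x ≠ 0) (hy : y ≠ 0) (h : s * x ^ 2 = t * y ^ 2) : s = t := by
  have hs0 : s ≠ 0 := hs.ne_zero
  have ht0 : t ≠ 0 := ht.ne_zero
  apply Nat.eq_of_factorization_eq hs0 ht0
  intro p
  have h1 := hs.natFactorization_le_one p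
  have h2 := ht.natFactorization_le_one p
  have h3 : (s * x ^ 2).factorization p = (t * y ^ 2).factorization p := by rw [h]
  rw [Nat.factorization_mul hs0 (pow_ne_zero 2 hx), Nat.factorization_mul ht0 (pow_ne_zero 2 hy),
    Nat.factorization_pow, Nat.factorization_pow] at h3
  simp only [Finsupp.add_apply, Finsupp.smul_apply, smul_eq_mul] at h3
  omega

/-- The congruence condition modulo `16` on the factorisations of `n`. -/
def Admissible (n : ℕ) : Prop :=
  ∀ α β γ δ i j : ℕ, α * β * γ * δ = n → γ % 2 = 1 → δ % 2 = 1 →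
    (i = 0 ∨ i = 1 ∨ i = 4) → (j = 0 ∨ j = 1 ∨ j = 4) → (i = 1 ∨ j = 1) →
    (α * i + β * j) % 16 = γ % 16 → (α * i) % 16 = (β * j + δ) % 16 →
    α = 1 ∧ γ = 1 ∧ δ = 1

theorem admissible_prime {p : ℕ} (hp : p.Prime) (h2 : p ≠ 2) (h1 : p % 16 ≠ 1)
    (h15 : p % 16 ≠ 15) : Admissible p := by
  have hodd : p % 2 = 1 := hp.eq_two_or_odd.resolve_left h2
  intro α β γ δ i j hprod hγ hδ hi hj hij e1 e2
  have key : ∀ a b : ℕ, a * b = p → (a = 1 ∧ b = p) ∨ (a = p ∧ b = 1) := by
    intro a b hab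
    rcases (Nat.dvd_prime hp).mp (Dvd.intro _ hab) with h | h
    · left; exact ⟨h, by simpa [h] using hab⟩
    · right; refine ⟨h, ?_⟩
      rw [h] at hab
      exact Nat.eq_of_mul_eq_mul_left hp.pos (by simpa using hab)
  rcases key _ _ hprod with ⟨h, hd⟩ | ⟨h, hd⟩
  · -- α β γ = 1, δ = p
    have hγ1 : γ = 1 := Nat.eq_one_of_mul_eq_one_left h
    have hab : α * β = 1 := Nat.eq_one_of_mul_eq_one_right h
    have hα : α = 1 := Nat.eq_one_of_mul_eq_one_right hab
    have hβ : β = 1 := Nat.eq_one_of_mul_eq_one_left hab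
    rw [hα, hβ, hγ1] at e1
    rw [hα, hβ, hd] at e2
    exfalso
    rcases hi with rfl | rfl | rfl <;> rcases hj with rfl | rfl | rfl <;> omega
  · rcases key _ _ h with ⟨h', hc⟩ | ⟨h', hc⟩
    · have hα : α = 1 := Nat.eq_one_of_mul_eq_one_right h'
      have hβ : β = 1 := Nat.eq_one_of_mul_eq_one_left h'
      rw [hα, hβ, hc] at e1
      rw [hα, hβ, hd] at e2
      exfalso
      rcases hi with rfl | rfl | rfl <;> rcases hj with rfl | rfl | rfl <;> omega
    · rcases key _ _ h' with ⟨hα, hβ⟩ | ⟨hα, hβ⟩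
      · exact ⟨hα, hc, hd⟩
      · rw [hα, hβ, hc] at e1
        rw [hα, hβ, hd] at e2
        exfalso
        rcases hi with rfl | rfl | rfl <;> rcases hj with rfl | rfl | rfl <;> omega


theorem sq_mod4 (a : ℕ) : (a ^ 2 % 4 = 0 ∧ a % 2 = 0) ∨ (a ^ 2 % 4 = 1 ∧ a % 2 = 1) := by
  have : a % 4 = 0 ∨ a % 4 = 1 ∨ a % 4 = 2 ∨ a % 4 = 3 := by omega
  rcases this with h | h | h | h <;> rw [Nat.pow_mod, h] <;> simp <;> omega

theorem natAbs_sq_sub {u v : ℕ} (h : v ≤ u) :
    ((u : ℤ) ^ 2 - (v : ℤ) ^ 2).natAbs = (u + v) * (u - v) := by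
  obtain ⟨w, rfl⟩ := Nat.exists_eq_add_of_le h
  have : ((v + w : ℕ) : ℤ) ^ 2 - (v : ℤ) ^ 2 = (((v + w + v) * w : ℕ) : ℤ) := by
    push_cast; ring
  rw [this, Int.natAbs_natCast]
  simp

theorem exists_param {n : ℕ} (hn : Squarefree n) {X Y Z D : ℕ} (hD : 0 < D)
    (hcop : Nat.Coprime X D) (h1 : X ^ 2 = Y ^ 2 + n * D ^ 2) (h2 : Z ^ 2 = X ^ 2 + n * D ^ 2) :
    ∃ f g E : ℕ, 0 < g ∧ g < f ∧ Nat.Coprime f g ∧ (f + g) % 2 = 1 ∧ D = 2 * E ∧ 0 < E ∧
      n * E ^ 2 = f * g * ((f + g) * (f - g)) := by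
  have hn0 : 0 < n := Nat.pos_of_ne_zero hn.ne_zero
  have h4 : ¬ 4 ∣ n := by
    intro h
    have h22 : (2 : ℕ) * 2 ∣ n := by simpa using h
    have := hn 2 h22
    rw [Nat.isUnit_iff] at this
    omega
  have h4D : 4 ∣ n * D ^ 2 → D % 2 = 0 := by
    intro h
    rcases Nat.mod_two_eq_zero_or_one D with hd | hd
    · exact hd
    · exfalso
      apply h4
      have hc : Nat.Coprime 4 (D ^ 2) := by
        apply Nat.Coprime.pow_right
        have : Nat.Coprime 2 D := by
          rw [Nat.Prime.coprime_iff_not_dvd Nat.prime_two]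
          omega
        exact Nat.Coprime.pow_left 2 this
      exact hc.dvd_of_dvd_mul_right h
  -- Y is odd
  have hYodd : Y % 2 = 1 := by
    by_contra hY
    have hY4 : Y ^ 2 % 4 = 0 := by rcases sq_mod4 Y with h | h <;> omega
    have hX : X ^ 2 % 4 = 0 ∧ X % 2 = 0 := by
      rcases sq_mod4 X with h | h
      · exact h
      · exfalso
        rcases sq_mod4 Z with h' | h' <;> omega
    have hnd : 4 ∣ n * D ^ 2 := by omega
    have hDe := h4D hnd
    have h2X : 2 ∣ X := Nat.dvd_of_mod_eq_zero hX.2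
    have h2D : 2 ∣ D := Nat.dvd_of_mod_eq_zero hDe
    have := Nat.eq_one_of_dvd_coprimes hcop h2X h2D
    omega
  have hY4 : Y ^ 2 % 4 = 1 := by rcases sq_mod4 Y with h | h <;> omega
  have hZodd : Z % 2 = 1 := by
    rcases sq_mod4 Z with h | h
    · exfalso
      omega
    · exact h.2
  have hYZ : Y ≤ Z := by
    have : Y ^ 2 ≤ Z ^ 2 := by omega
    exact (Nat.pow_le_pow_iff_left (by norm_num)).mp this
  obtain ⟨t, ht⟩ : ∃ t, Z = 2 * t + Y := ⟨(Z - Y) / 2, by omega⟩
  set s := t + Y with hs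
  have hX2 : X ^ 2 = s ^ 2 + t ^ 2 := by
    have h3 : Z ^ 2 + Y ^ 2 = 2 * X ^ 2 := by omega
    rw [ht] at h3
    have : 2 * X ^ 2 = 2 * (s ^ 2 + t ^ 2) := by rw [← h3, hs]; ring
    omega
  have hnD : n * D ^ 2 = 2 * s * t := by
    have : Y ^ 2 + n * D ^ 2 = Y ^ 2 + 2 * s * t := by rw [← h1, hX2, hs]; ring
    omega
  have hst : Nat.Coprime s t := by
    apply Nat.coprime_of_dvd
    intro q hq hqs hqt
    have hqX : q ∣ X := by
      have : q ∣ X ^ 2 := by
        rw [hX2]
        exact dvd_add (dvd_pow hqs two_ne_zero) (dvd_pow hqt two_ne_zero)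
      exact hq.dvd_of_dvd_pow this
    have hqD : ¬ q ∣ D := fun hqD => hq.one_lt.ne' (Nat.eq_one_of_dvd_coprimes hcop hqX hqD)
    have hqq : q ^ 2 ∣ n * D ^ 2 := by
      rw [hnD]
      have : q * q ∣ s * t := Nat.mul_dvd_mul hqs hqt
      rw [sq, mul_assoc]
      exact Dvd.dvd.mul_left this 2
    have hcq : Nat.Coprime (q ^ 2) (D ^ 2) :=
      Nat.Coprime.pow _ _ ((Nat.Prime.coprime_iff_not_dvd hq).mpr hqD)
    have hqn : q ^ 2 ∣ n := hcq.dvd_of_dvd_mul_right hqq
    rw [sq] at hqn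
    have := hn q hqn
    rw [Nat.isUnit_iff] at this
    exact hq.one_lt.ne' this
  have hpt : PythagoreanTriple (s : ℤ) (t : ℤ) (X : ℤ) := by
    unfold PythagoreanTriple
    have : ((X ^ 2 : ℕ) : ℤ) = ((s ^ 2 + t ^ 2 : ℕ) : ℤ) := by rw [hX2]
    push_cast at this
    linarith [this, sq (X : ℤ), sq (s : ℤ), sq (t : ℤ)]
  have hgcd : Int.gcd (s : ℤ) (t : ℤ) = 1 := by
    rw [Int.gcd_natCast_natCast]; exact hst
  obtain ⟨m, k, hmk, -, hmkc, hmkp⟩ := PythagoreanTriple.coprime_classification.mp ⟨hpt, hgcd⟩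
  have hstz : (s : ℤ) * t = 2 * (m * k * (m ^ 2 - k ^ 2)) := by
    rcases hmk with ⟨h, h'⟩ | ⟨h, h'⟩ <;> rw [h, h'] <;> ring
  have hnDz : (n : ℤ) * D ^ 2 = 4 * (m * k * (m ^ 2 - k ^ 2)) := by
    have : ((n * D ^ 2 : ℕ) : ℤ) = ((2 * s * t : ℕ) : ℤ) := by rw [hnD]
    push_cast at this
    rw [this, mul_assoc, hstz]; ring
  have h4' : 4 ∣ n * D ^ 2 := by
    have : (4 : ℤ) ∣ ((n * D ^ 2 : ℕ) : ℤ) := by
      push_cast
      rw [hnDz]
      exact Dvd.intro _ rfl
    exact_mod_cast this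
  have hDe := h4D h4'
  obtain ⟨E, hE⟩ : ∃ E, D = 2 * E := ⟨D / 2, by omega⟩
  have hEpos : 0 < E := by omega
  have hnEz : (n : ℤ) * E ^ 2 = m * k * (m ^ 2 - k ^ 2) := by
    have : (4 : ℤ) * (n * E ^ 2) = 4 * (m * k * (m ^ 2 - k ^ 2)) := by
      rw [← hnDz, hE]; push_cast; ring
    linarith
  have habs : n * E ^ 2 = m.natAbs * k.natAbs * (m ^ 2 - k ^ 2).natAbs := by
    have := congrArg Int.natAbs hnEz
    rw [Int.natAbs_mul (m * k), Int.natAbs_mul m k] at this
    rw [← this]
    simp [Int.natAbs_mul, Int.natAbs_pow]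
  have hpos : 0 < n * E ^ 2 := by positivity
  have hm0 : m.natAbs ≠ 0 := by
    intro h; rw [h] at habs; simp at habs; omega
  have hk0 : k.natAbs ≠ 0 := by
    intro h; rw [h] at habs; simp at habs; omega
  have hmsq : ((m.natAbs : ℤ)) ^ 2 = m ^ 2 := Int.natAbs_sq m
  have hksq : ((k.natAbs : ℤ)) ^ 2 = k ^ 2 := Int.natAbs_sq k
  have hcopn : Nat.Coprime m.natAbs k.natAbs := hmkc
  have hpar : (m.natAbs + k.natAbs) % 2 = 1 := by omega
  rcases lt_trichotomy m.natAbs k.natAbs with hlt | heq | hgt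
  · refine ⟨k.natAbs, m.natAbs, E, by omega, hlt, hcopn.symm, by omega, hE, hEpos, ?_⟩
    have : (m ^ 2 - k ^ 2).natAbs = (k.natAbs + m.natAbs) * (k.natAbs - m.natAbs) := by
      rw [← hmsq, ← hksq, ← Int.natAbs_neg, neg_sub]
      exact natAbs_sq_sub hlt.le
    rw [habs, this]; ring
  · exfalso
    have : m ^ 2 - k ^ 2 = 0 := by rw [← hmsq, ← hksq, heq]; ring
    rw [this] at habs
    simp at habs
    omega
  · refine ⟨m.natAbs, k.natAbs, E, by omega, hgt, hcopn, by omega, hE, hEpos, ?_⟩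
    have : (m ^ 2 - k ^ 2).natAbs = (m.natAbs + k.natAbs) * (m.natAbs - k.natAbs) := by
      rw [← hmsq, ← hksq]
      exact natAbs_sq_sub hgt.le
    rw [habs, this]

theorem Good.of_two_mul {E : ℕ} (hE : 0 < E) (h : Good (2 * E)) : Good E := by
  intro q hq hq8
  have := Fact.mk hq
  have h1 := h q hq hq8
  rw [padicValNat.mul two_ne_zero hE.ne'] at h1
  have : padicValNat q 2 = 0 := by
    apply padicValNat.eq_zero_of_not_dvd
    intro hq2
    rw [Nat.prime_dvd_prime_iff_eq hq Nat.prime_two] at hq2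
    omega
  rw [this, zero_add] at h1
  exact h1

theorem descent {n : ℕ} (hn : Squarefree n) (adm : Admissible n) :
    ∀ D : ℕ, 0 < D → Good D → ∀ X Y Z : ℕ, Nat.Coprime X D →
      X ^ 2 = Y ^ 2 + n * D ^ 2 → Z ^ 2 = X ^ 2 + n * D ^ 2 → False := by
  intro D
  induction D using Nat.strong_induction_on with
  | _ D ih =>
    intro hD hgood X Y Z hcop h1 h2
    obtain ⟨f, g, E, hg0, hgf, hfg, hpar, hDE, hE0, heq⟩ := exists_param hn hD hcop h1 h2
    obtain ⟨h, hh⟩ : ∃ h, f = g + h := ⟨f - g, by omega⟩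
    have hh0 : 0 < h := by omega
    have hsub : f - g = h := by omega
    rw [hsub] at heq
    obtain ⟨α, a, hα0, ha0, hαa, hα⟩ := Nat.sq_mul_squarefree_of_pos (show 0 < f by omega)
    obtain ⟨β, b, hβ0, hb0, hβb, hβ⟩ := Nat.sq_mul_squarefree_of_pos hg0
    obtain ⟨γ, c, hγ0, hc0, hγc, hγ⟩ := Nat.sq_mul_squarefree_of_pos (show 0 < f + g by omega)
    obtain ⟨δ, d, hδ0, hd0, hδd, hδ⟩ := Nat.sq_mul_squarefree_of_pos hh0
    -- pairwise coprimality of f, g, f+g, h
    have cfg : Nat.Coprime f g := hfg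
    have cf_s : Nat.Coprime f (f + g) := by simpa using hfg
    have cg_s : Nat.Coprime g (f + g) := by simpa using hfg.symm
    have cf_h : Nat.Coprime f h := by
      rw [hh] at hfg ⊢
      have : Nat.Coprime h g := by simpa using hfg
      simpa [Nat.coprime_comm] using this
    have cg_h : Nat.Coprime g h := by
      rw [hh] at hfg
      have : Nat.Coprime h g := by simpa using hfg
      exact this.symm
    have cs_h : Nat.Coprime (f + g) h := by
      apply Nat.coprime_of_dvd
      intro q hq hqs hqh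
      have hq2 : q ≠ 2 := by
        rintro rfl
        omega
      have hqg : q ∣ 2 * g := by
        have : 2 * g = (f + g) - h := by omega
        rw [this]
        exact Nat.dvd_sub hqs hqh
      have hqg' : q ∣ g := by
        rcases (Nat.Prime.dvd_mul hq).mp hqg with h' | h'
        · exact absurd ((Nat.prime_dvd_prime_iff_eq hq Nat.prime_two).mp h') hq2
        · exact h'
      exact hq.one_lt.ne' (Nat.eq_one_of_dvd_coprimes cg_h hqg' hqh)
    have dαf : α ∣ f := ⟨a ^ 2, by rw [← hαa]; ring⟩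
    have dβg : β ∣ g := ⟨b ^ 2, by rw [← hβb]; ring⟩
    have dγs : γ ∣ f + g := ⟨c ^ 2, by rw [← hγc]; ring⟩
    have dδh : δ ∣ h := ⟨d ^ 2, by rw [← hδd]; ring⟩
    have daf : a ∣ f := ⟨a * α, by rw [← hαa]; ring⟩
    have dbg : b ∣ g := ⟨b * β, by rw [← hβb]; ring⟩
    have dcs : c ∣ f + g := ⟨c * γ, by rw [← hγc]; ring⟩
    have ddh : d ∣ h := ⟨d * δ, by rw [← hδd]; ring⟩
    have sq1 : Squarefree (α * β) :=
      (Nat.squarefree_mul (Nat.Coprime.of_dvd dαf dβg cfg)).mpr ⟨hα, hβ⟩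
    have sq2 : Squarefree (α * β * γ) := by
      refine (Nat.squarefree_mul ?_).mpr ⟨sq1, hγ⟩
      exact Nat.Coprime.mul_left (Nat.Coprime.of_dvd dαf dγs cf_s)
        (Nat.Coprime.of_dvd dβg dγs cg_s)
    have sq3 : Squarefree (α * β * γ * δ) := by
      refine (Nat.squarefree_mul ?_).mpr ⟨sq2, hδ⟩
      exact Nat.Coprime.mul_left (Nat.Coprime.mul_left (Nat.Coprime.of_dvd dαf dδh cf_h)
        (Nat.Coprime.of_dvd dβg dδh cg_h)) (Nat.Coprime.of_dvd dγs dδh cs_h)
    have hprod : n * E ^ 2 = (α * β * γ * δ) * (a * b * c * d) ^ 2 := by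
      rw [heq, ← hδd, ← hγc]
      conv_lhs => rw [← hαa, ← hβb]
      ring
    have hnαβ : n = α * β * γ * δ :=
      sqfree_unique hn sq3 hE0.ne' (by positivity) hprod
    have hEabcd : E = a * b * c * d := by
      rw [← hnαβ] at hprod
      have h3 : E ^ 2 = (a * b * c * d) ^ 2 :=
        Nat.eq_of_mul_eq_mul_left (Nat.pos_of_ne_zero hn.ne_zero) hprod
      exact Nat.pow_left_injective (n := 2) (by norm_num) h3
    have gE : Good (a * b * c * d) := by
      rw [← hEabcd]
      apply Good.of_two_mul hE0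
      rw [← hDE]
      exact hgood
    have cab : Nat.Coprime a b := Nat.Coprime.of_dvd daf dbg cfg
    have cabc : Nat.Coprime (a * b) c :=
      Nat.Coprime.mul_left (Nat.Coprime.of_dvd daf dcs cf_s) (Nat.Coprime.of_dvd dbg dcs cg_s)
    have cabcd : Nat.Coprime (a * b * c) d :=
      Nat.Coprime.mul_left (Nat.Coprime.mul_left (Nat.Coprime.of_dvd daf ddh cf_h)
        (Nat.Coprime.of_dvd dbg ddh cg_h)) (Nat.Coprime.of_dvd dcs ddh cs_h)
    obtain ⟨g1, gd⟩ := Good.of_coprime_mul (by positivity) (by positivity) cabcd gE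
    obtain ⟨g2, gc⟩ := Good.of_coprime_mul (by positivity) (by positivity) cabc g1
    obtain ⟨ga, gb⟩ := Good.of_coprime_mul (by positivity) (by positivity) cab g2
    -- parity
    have hc1 : c % 2 = 1 := by
      rcases Nat.mod_two_eq_zero_or_one c with h' | h'
      · exfalso
        have : (f + g) % 2 = 0 := by
          rw [← hγc, sq, mul_assoc, Nat.mul_mod, h']; simp
        omega
      · exact h'
    have hγ1 : γ % 2 = 1 := by
      rcases Nat.mod_two_eq_zero_or_one γ with h' | h'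
      · exfalso
        have : (f + g) % 2 = 0 := by
          rw [← hγc, Nat.mul_mod, h']; simp
        omega
      · exact h'
    have hd1 : d % 2 = 1 := by
      rcases Nat.mod_two_eq_zero_or_one d with h' | h'
      · exfalso
        have : h % 2 = 0 := by
          rw [← hδd, sq, mul_assoc, Nat.mul_mod, h']; simp
        omega
      · exact h'
    have hδ1 : δ % 2 = 1 := by
      rcases Nat.mod_two_eq_zero_or_one δ with h' | h'
      · exfalso
        have : h % 2 = 0 := by
          rw [← hδd, Nat.mul_mod, h']; simp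
        omega
      · exact h'
    have hc16 : c ^ 2 % 16 = 1 := by rcases ga.sq_mod16 with _ | _ <;> rcases gc.sq_mod16 with h' | h' <;> omega
    have hd16 : d ^ 2 % 16 = 1 := by rcases gd.sq_mod16 with h' | h' <;> omega
    have hab2 : a % 2 = 1 ∨ b % 2 = 1 := by
      by_contra hcon
      have h2a : 2 ∣ a := by omega
      have h2b : 2 ∣ b := by omega
      have := Nat.eq_one_of_dvd_coprimes cab h2a h2b
      omega
    have hi : a ^ 2 % 16 = 0 ∨ a ^ 2 % 16 = 1 ∨ a ^ 2 % 16 = 4 := by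
      rcases ga.sq_mod16 with h' | h' <;> omega
    have hj : b ^ 2 % 16 = 0 ∨ b ^ 2 % 16 = 1 ∨ b ^ 2 % 16 = 4 := by
      rcases gb.sq_mod16 with h' | h' <;> omega
    have hij : a ^ 2 % 16 = 1 ∨ b ^ 2 % 16 = 1 := by
      rcases ga.sq_mod16 with h' | h' <;> rcases gb.sq_mod16 with h'' | h'' <;> omega
    have e1 : (α * (a ^ 2 % 16) + β * (b ^ 2 % 16)) % 16 = γ % 16 := by
      have h3 : a ^ 2 * α + b ^ 2 * β = c ^ 2 * γ := by rw [hαa, hβb, hγc]
      have h4 : (c ^ 2 * γ) % 16 = γ % 16 := by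
        rw [Nat.mul_mod, hc16, one_mul, Nat.mod_mod]
      rw [← h4, ← h3, Nat.add_mod (a ^ 2 * α), Nat.mul_mod (a ^ 2) α, Nat.mul_mod (b ^ 2) β,
        Nat.add_mod (α * _), Nat.mul_mod α, Nat.mul_mod β, Nat.mod_mod, Nat.mod_mod,
        mul_comm (α % 16), mul_comm (β % 16)]
    have e2 : (α * (a ^ 2 % 16)) % 16 = (β * (b ^ 2 % 16) + δ) % 16 := by
      have h3 : a ^ 2 * α = b ^ 2 * β + d ^ 2 * δ := by rw [hαa, hβb, hδd]; exact hh
      have h4 : (d ^ 2 * δ) % 16 = δ % 16 := by
        rw [Nat.mul_mod, hd16, one_mul, Nat.mod_mod]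
      have h5 : (α * (a ^ 2 % 16)) % 16 = (a ^ 2 * α) % 16 := by
        rw [Nat.mul_mod, Nat.mod_mod, Nat.mul_mod (a ^ 2), mul_comm (α % 16)]
      rw [h5, h3, Nat.add_mod, h4, Nat.add_mod (β * _), Nat.mul_mod (b ^ 2) β,
        Nat.mul_mod β, Nat.mod_mod, mul_comm (β % 16)]
    obtain ⟨hα', hγ', hδ'⟩ := adm α β γ δ _ _ hnαβ.symm hγ1 hδ1 hi hj hij e1 e2
    have hβn : β = n := by rw [hnαβ, hα', hγ', hδ']; ring
    rw [hα', mul_one] at hαa
    rw [hγ', mul_one] at hγc
    rw [hδ', mul_one] at hδd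
    rw [hβn] at hβb
    have hbD : b < D := by
      have h3 : b ≤ E := by
        rw [hEabcd]
        have h4 : a * b * c * d = b * (a * c * d) := by ring
        rw [h4]
        exact Nat.le_mul_of_pos_right _ (by positivity)
      omega
    refine ih b hbD hb0 gb a d c cab ?_ ?_
    · rw [hαa, hδd, hh, ← hβb]; ring
    · rw [hγc, hαa, ← hβb]; ring


theorem not_dvd_sq_sub_two {q : ℕ} (hq : q.Prime) (hq8 : q % 8 = 3 ∨ q % 8 = 5) {a b : ℤ}
    (hb : ¬ (q : ℤ) ∣ b) : ¬ (q : ℤ) ∣ a ^ 2 - 2 * b ^ 2 := by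
  have := Fact.mk hq
  intro h
  have hq2 : q ≠ 2 := by rintro rfl; omega
  have h1 : ((a : ZMod q)) ^ 2 = 2 * (b : ZMod q) ^ 2 := by
    have : ((a ^ 2 - 2 * b ^ 2 : ℤ) : ZMod q) = 0 := (ZMod.intCast_zmod_eq_zero_iff_dvd _ _).mpr h
    push_cast at this
    exact sub_eq_zero.mp this
  have hb0 : (b : ZMod q) ≠ 0 := by
    intro h0
    exact hb ((ZMod.intCast_zmod_eq_zero_iff_dvd _ _).mp h0)
  have hsq : IsSquare (2 : ZMod q) := by
    refine ⟨(a : ZMod q) / b, ?_⟩
    field_simp
    rw [← h1]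
  have := (ZMod.exists_sq_eq_two_iff hq2).mp hsq
  omega

theorem even_padicValRat_of_norm {q : ℕ} (hq : q.Prime) (hq8 : q % 8 = 3 ∨ q % 8 = 5)
    {y u v : ℚ} (hy : y ≠ 0) (h : y = u ^ 2 - 2 * v ^ 2) : Even (padicValRat q y) := by
  have := Fact.mk hq
  by_cases hv : v = 0
  · subst hv
    have hu : u ≠ 0 := by rintro rfl; simp at h; exact hy h
    have : y = u ^ 2 := by rw [h]; ring
    rw [this, padicValRat.pow]
    exact ⟨_, by push_cast; ring⟩
  · set w := u / v with hw
    have hyw : y = (v / w.den) ^ 2 * ((w.num ^ 2 - 2 * (w.den : ℤ) ^ 2 : ℤ) : ℚ) := by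
      have h1 : u = w * v := by rw [hw]; field_simp
      have h2 : (w.den : ℚ) ≠ 0 := by exact_mod_cast w.den_ne_zero
      have h3 : w * w.den = w.num := Rat.mul_den_eq_num w
      rw [h, h1]
      push_cast
      rw [← h3]
      field_simp
    have hnd : ¬ (q : ℤ) ∣ (w.num ^ 2 - 2 * (w.den : ℤ) ^ 2) := by
      by_cases hqd : (q : ℤ) ∣ (w.den : ℤ)
      · intro hcon
        have h1 : (q : ℤ) ∣ w.num ^ 2 := by
          have : w.num ^ 2 = (w.num ^ 2 - 2 * (w.den : ℤ) ^ 2) + 2 * (w.den : ℤ) ^ 2 := by ring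
          rw [this]
          exact dvd_add hcon (Dvd.dvd.mul_left (dvd_pow hqd two_ne_zero) _)
        have h2 : (q : ℤ) ∣ w.num := (Nat.prime_iff_prime_int.mp hq).dvd_of_dvd_pow h1
        have h3 : q ∣ w.num.natAbs := Int.natCast_dvd.mp h2
        have h4 : q ∣ w.den := by exact_mod_cast hqd
        exact hq.one_lt.ne' (Nat.eq_one_of_dvd_coprimes w.reduced h3 h4)
      · exact not_dvd_sq_sub_two hq hq8 hqd
    have hN : ((w.num ^ 2 - 2 * (w.den : ℤ) ^ 2 : ℤ) : ℚ) ≠ 0 := by
      intro h0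
      have : (w.num ^ 2 - 2 * (w.den : ℤ) ^ 2 : ℤ) = 0 := by exact_mod_cast h0
      rw [this] at hnd
      exact hnd (dvd_zero _)
    have hvd : v / w.den ≠ 0 := by
      have h2 : (w.den : ℚ) ≠ 0 := by exact_mod_cast w.den_ne_zero
      exact div_ne_zero hv h2
    rw [hyw, padicValRat.mul (pow_ne_zero 2 hvd) hN, padicValRat.pow, padicValRat.of_int,
      padicValInt.eq_zero_of_not_dvd hnd]
    exact ⟨padicValRat q (v / w.den), by push_cast; ring⟩

theorem int_of_sq {r : ℚ} {m : ℤ} (h : r ^ 2 = m) : ∃ k : ℕ, (k : ℚ) ^ 2 = m := by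
  have h1 : (r ^ 2).den = 1 := by rw [h]; exact Rat.den_intCast m
  rw [Rat.den_pow] at h1
  have h2 : r.den = 1 := by
    rcases Nat.eq_one_of_mul_eq_one_right (by rw [← sq]; exact h1) with h'
    exact h'
  refine ⟨r.num.natAbs, ?_⟩
  have h3 : (r.num : ℚ) = r := by
    have := Rat.num_div_den r
    rw [h2] at this
    simpa using this
  rw [← h, ← h3]
  have h4 : ((r.num.natAbs : ℤ)) ^ 2 = r.num ^ 2 := Int.natAbs_sq _
  have h5 : (((r.num.natAbs : ℤ) : ℚ)) ^ 2 = (r.num : ℚ) ^ 2 := by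
    rw [← Int.cast_pow, h4, Int.cast_pow]
  rw [← h5]
  norm_cast

/-- The key valuation computation. -/
theorem good_den {n : ℕ} (hn : Squarefree n) {x y : ℚ} (hy : y ≠ 0)
    (h : y ^ 2 = x ^ 3 - n ^ 2 * x)
    (hg : ∀ q : ℕ, q.Prime → (q % 8 = 3 ∨ q % 8 = 5) → Even (padicValRat q y)) :
    Good ((x ^ 2 + n ^ 2) / (2 * y)).den := by
  intro q hq hq8
  have := Fact.mk hq
  set r := (x ^ 2 + n ^ 2) / (2 * y) with hr
  have hq2 : q ≠ 2 := by rintro rfl; omega
  by_cases hqd : q ∣ r.den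
  swap
  · rw [padicValNat.eq_zero_of_not_dvd hqd]; exact Even.zero
  have hn0 : (n : ℚ) ≠ 0 := by exact_mod_cast hn.ne_zero
  have hx0 : x ≠ 0 := by
    rintro rfl
    simp at h
    exact hy h
  have hsum : x ^ 2 + (n : ℚ) ^ 2 ≠ 0 := by positivity
  have hr0 : r ≠ 0 := div_ne_zero hsum (mul_ne_zero two_ne_zero hy)
  have hnum : padicValInt q r.num = 0 := by
    apply padicValInt.eq_zero_of_not_dvd
    intro h2
    have h3 : q ∣ r.num.natAbs := Int.natCast_dvd.mp h2
    exact hq.one_lt.ne' (Nat.eq_one_of_dvd_coprimes r.reduced h3 hqd)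
  have hvr : padicValRat q r = - (padicValNat q r.den : ℤ) := by
    rw [padicValRat_def, hnum]; simp
  have hdpos : 0 < padicValNat q r.den := by
    have := (one_le_padicValNat_of_dvd r.den_ne_zero hqd)
    omega
  have h2v : padicValRat q (2 : ℚ) = 0 := by
    have : padicValNat q 2 = 0 := by
      apply padicValNat.eq_zero_of_not_dvd
      intro hq2'
      rw [Nat.prime_dvd_prime_iff_eq hq Nat.prime_two] at hq2'
      exact hq2 hq2'
    have h3 := padicValRat.of_nat (p := q) (n := 2)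
    rw [this] at h3
    exact_mod_cast h3
  have hvr2 : padicValRat q r = padicValRat q (x ^ 2 + (n : ℚ) ^ 2) - padicValRat q y := by
    rw [hr, padicValRat.div hsum (mul_ne_zero two_ne_zero hy), padicValRat.mul two_ne_zero hy, h2v]
    ring
  have hvy := hg q hq hq8
  -- it suffices that the valuation of the sum is even
  suffices hS : Even (padicValRat q (x ^ 2 + (n : ℚ) ^ 2)) by
    have h3 : Even (padicValRat q r) := by rw [hvr2]; exact hS.sub hvy
    rw [hvr] at h3
    have h4 : Even ((padicValNat q r.den : ℤ)) := by simpa using h3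
    exact_mod_cast h4
  have hvn : padicValRat q (n : ℚ) = padicValNat q n := padicValRat.of_nat
  have hvn1 : padicValNat q n ≤ 1 := by
    have := hn.natFactorization_le_one q
    rwa [Nat.factorization_def n hq] at this
  by_cases hk : padicValRat q x = padicValRat q (n : ℚ)
  · set k := padicValRat q (n : ℚ) with hkdef
    have hx2 : padicValRat q (x ^ 2) = 2 * k := by rw [padicValRat.pow, hk]; norm_num
    have hn2 : padicValRat q ((n : ℚ) ^ 2) = 2 * k := by
      rw [padicValRat.pow, ← hkdef]; push_cast; ring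
    have hge : 2 * k ≤ padicValRat q (x ^ 2 + (n : ℚ) ^ 2) := by
      have := padicValRat.min_le_padicValRat_add (p := q) (q := x ^ 2) (r := (n : ℚ) ^ 2) hsum
      rw [hx2, hn2, min_self] at this
      exact this
    rcases hge.eq_or_lt with heq | hlt
    · rw [← heq]; exact even_two_mul k
    · exfalso
      have hy2 : y ^ 2 = x * (x ^ 2 - (n : ℚ) ^ 2) := by rw [h]; ring
      have hdiff : x ^ 2 - (n : ℚ) ^ 2 ≠ 0 := by
        intro h0
        rw [h0] at hy2
        simp at hy2
        exact hy hy2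
      have hd2 : x ^ 2 - (n : ℚ) ^ 2 = (x ^ 2 + (n : ℚ) ^ 2) + (-2) * (n : ℚ) ^ 2 := by ring
      have hm2 : padicValRat q ((-2) * (n : ℚ) ^ 2) = 2 * k := by
        rw [padicValRat.mul (by norm_num) (pow_ne_zero 2 hn0), hn2, padicValRat.neg, h2v]
        ring
      have hdv : padicValRat q (x ^ 2 - (n : ℚ) ^ 2) = 2 * k := by
        rw [hd2]
        rw [padicValRat.add_eq_min (by rw [← hd2]; exact hdiff) hsum
          (mul_ne_zero (by norm_num) (pow_ne_zero 2 hn0)) (by rw [hm2]; exact hlt.ne')]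
        rw [hm2]
        exact min_eq_right hlt.le
      have hv3 : 2 * padicValRat q y = 3 * k := by
        have h5 := congrArg (padicValRat q) hy2
        rw [padicValRat.pow, padicValRat.mul hx0 hdiff, hdv, hk] at h5
        push_cast at h5
        linarith
      have hk01 : k = 0 ∨ k = 1 := by rw [hvn]; omega
      rcases hk01 with hk0 | hk1
      · have hvy0 : padicValRat q y = 0 := by rw [hk0] at hv3; linarith
        rw [hvy0, hvr] at hvr2
        rw [hk0] at hlt
        have : (0 : ℤ) < padicValNat q r.den := by exact_mod_cast hdpos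
        linarith
      · rw [hk1] at hv3
        omega
  · have hne : padicValRat q (x ^ 2) ≠ padicValRat q ((n : ℚ) ^ 2) := by
      rw [padicValRat.pow, padicValRat.pow]
      intro h5
      apply hk
      push_cast at h5
      linarith
    rw [padicValRat.add_eq_min hsum (pow_ne_zero 2 hx0) (pow_ne_zero 2 hn0) hne,
      padicValRat.pow, padicValRat.pow]
    rcases min_choice (((2 : ℕ) : ℤ) * padicValRat q x) (((2 : ℕ) : ℤ) * padicValRat q (n : ℚ)) with h5 | h5 <;>
      rw [h5] <;> push_cast <;> exact even_two_mul _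

theorem no_norm {n : ℕ} (hn : Squarefree n) (adm : Admissible n) {x y u v : ℚ} (hy : y ≠ 0)
    (h : y ^ 2 = x ^ 3 - n ^ 2 * x) (h2 : y = u ^ 2 - 2 * v ^ 2) : False := by
  have hgd := good_den hn hy h (fun q hq hq8 => even_padicValRat_of_norm hq hq8 hy h2)
  set r := (x ^ 2 + n ^ 2) / (2 * y) with hr
  have hD0 : (r.den : ℚ) ≠ 0 := by exact_mod_cast r.den_ne_zero
  have hrD : r * r.den = r.num := Rat.mul_den_eq_num r
  have e1 : r ^ 2 - n = ((x ^ 2 - 2 * n * x - n ^ 2) / (2 * y)) ^ 2 := by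
    rw [hr]
    field_simp
    linear_combination (-4 * (n : ℚ)) * h
  have e2 : r ^ 2 + n = ((x ^ 2 + 2 * n * x - n ^ 2) / (2 * y)) ^ 2 := by
    rw [hr]
    field_simp
    linear_combination (4 * (n : ℚ)) * h
  obtain ⟨Y, hY⟩ := int_of_sq (r := ((x ^ 2 - 2 * n * x - n ^ 2) / (2 * y)) * r.den)
    (m := r.num ^ 2 - n * (r.den : ℤ) ^ 2) (by
      rw [mul_pow, ← e1]; push_cast; rw [← hrD]; ring)
  obtain ⟨Z, hZ⟩ := int_of_sq (r := ((x ^ 2 + 2 * n * x - n ^ 2) / (2 * y)) * r.den)
    (m := r.num ^ 2 + n * (r.den : ℤ) ^ 2) (by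
      rw [mul_pow, ← e2]; push_cast; rw [← hrD]; ring)
  have hX : ((r.num.natAbs : ℕ) : ℤ) ^ 2 = r.num ^ 2 := Int.natAbs_sq _
  have hY' : (Y : ℤ) ^ 2 = r.num ^ 2 - n * (r.den : ℤ) ^ 2 := by exact_mod_cast hY
  have hZ' : (Z : ℤ) ^ 2 = r.num ^ 2 + n * (r.den : ℤ) ^ 2 := by exact_mod_cast hZ
  refine descent hn adm r.den r.den_pos hgd r.num.natAbs Y Z r.reduced ?_ ?_
  · zify
    have : ((|r.num| : ℤ)) ^ 2 = r.num ^ 2 := sq_abs _
    rw [this, hY']; ring
  · zify
    have : ((|r.num| : ℤ)) ^ 2 = r.num ^ 2 := sq_abs _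
    rw [this, hZ']




/-- Finitely many elements of the function field are sections over a common nonempty open set. -/
theorem exists_sections {V : Scheme.{0}} [IsIntegral V] {m : ℕ} (a : Fin m → V.functionField) :
    ∃ (U : V.Opens) (_ : Nonempty U) (b : Fin m → Γ(V, U)),
      ∀ i, V.germToFunctionField U (b i) = a i := by
  induction m with
  | zero =>
    refine ⟨⊤, ⟨⟨genericPoint V, trivial⟩⟩, fun i => i.elim0, fun i => i.elim0⟩
  | succ m ih =>
    obtain ⟨U, hU, b, hb⟩ := ih (fun i => a i.succ)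
    obtain ⟨W, hW, g, hg⟩ := V.presheaf.exists_germ_eq (a 0)
    have hgU : genericPoint V ∈ U :=
      ((genericPoint_spec V).mem_open_set_iff U.isOpen).mpr (by simpa using hU)
    refine ⟨U ⊓ W, ⟨⟨genericPoint V, hgU, hW⟩⟩,
      Fin.cons (V.presheaf.map (homOfLE inf_le_right).op g)
        (fun i => V.presheaf.map (homOfLE inf_le_left).op (b i)), ?_⟩
    intro i
    refine Fin.cases ?_ ?_ i
    · rw [Fin.cons_zero]
      have := V.presheaf.germ_res_apply (homOfLE (inf_le_right : U ⊓ W ≤ W)) (genericPoint V)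
        ⟨hgU, hW⟩ g
      rw [hg] at this
      exact this
    · intro j
      rw [Fin.cons_succ]
      have := V.presheaf.germ_res_apply (homOfLE (inf_le_left : U ⊓ W ≤ U)) (genericPoint V)
        ⟨hgU, hW⟩ (b j)
      rw [← hb j]
      exact this

/-- A `K`-point of a scheme landing in the open set `U` gives a ring homomorphism `Γ(V, U) → K`. -/
theorem exists_hom_of_point {V : Scheme.{0}} {K : Type} [Field K] (U : V.Opens)
    (s : Spec (CommRingCat.of K) ⟶ V) (hs : s (IsLocalRing.closedPoint K) ∈ U) :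
    Nonempty (Γ(V, U) →+* K) := by
  have htop : s ⁻¹ᵁ U = ⊤ := by
    ext x
    have hx : x = IsLocalRing.closedPoint K := Subsingleton.elim _ _
    simp only [hx]
    exact ⟨fun _ => trivial, fun _ => hs⟩
  refine ⟨((Scheme.ΓSpecIso (CommRingCat.of K)).hom.hom).comp
    (((Spec (CommRingCat.of K)).presheaf.map (eqToHom htop.symm).op).hom.comp (s.app U).hom)⟩


/-- The set `V(ℚ)` of rational points of a scheme `V` over `ℚ`, as a set of points of `V`. -/
def rationalPoints {V : Scheme.{0}} (f : V ⟶ Spec (CommRingCat.of ℚ)) : Set V :=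
  {P | ∃ s : Spec (CommRingCat.of ℚ) ⟶ V, s ≫ f = 𝟙 _ ∧ s (IsLocalRing.closedPoint ℚ) = P}

/-- **Main theorem.** Let `n` be an odd prime with `n ≢ ±1 (mod 16)` (or, more generally, a
squarefree admissible number) and let `V` be an integral scheme over `ℚ` whose function field
contains `x, y, u, v` with `y ≠ 0`, `y² = x³ - n² x` and `y = u² - 2 v²`. Then `V(ℚ)` is not
Zariski dense in `V`. -/
theorem result (n : ℕ)
    (hn : (n.Prime ∧ n ≠ 2 ∧ n % 16 ≠ 1 ∧ n % 16 ≠ 15) ∨ (Squarefree n ∧ Admissible n))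
    (V : Scheme.{0}) [IsIntegral V] (f : V ⟶ Spec (CommRingCat.of ℚ))
    (x y u v : V.functionField) (hy : y ≠ 0)
    (h1 : y ^ 2 = x ^ 3 - (n : V.functionField) ^ 2 * x)
    (h2 : y = u ^ 2 - 2 * v ^ 2) :
    ¬ Dense (rationalPoints f) := by
  obtain ⟨hn, adm⟩ : Squarefree n ∧ Admissible n := by
    rcases hn with ⟨hp, hp2, hp1, hp15⟩ | h
    · exact ⟨hp.prime.squarefree, admissible_prime hp hp2 hp1 hp15⟩
    · exact h
  intro hdense
  obtain ⟨U, hU, y', hUne, hyy, hyu⟩ := exists_isUnit_germ_eq V y hy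
  obtain ⟨W, hWne, b, hb⟩ := exists_sections (V := V) ![x, u, v]
  have hgU : genericPoint V ∈ U :=
    ((genericPoint_spec V).mem_open_set_iff U.isOpen).mpr (by simpa using hUne)
  have hgW : genericPoint V ∈ W :=
    ((genericPoint_spec V).mem_open_set_iff W.isOpen).mpr (by simpa using hWne)
  have hne : Nonempty (U ⊓ W : V.Opens) := ⟨⟨genericPoint V, hgU, hgW⟩⟩
  -- restrict everything to `U ⊓ W`
  set yy : Γ(V, U ⊓ W) := V.presheaf.map (homOfLE inf_le_left).op y' with hyydef
  set xx : Γ(V, U ⊓ W) := V.presheaf.map (homOfLE inf_le_right).op (b 0) with hxxdef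
  set uu : Γ(V, U ⊓ W) := V.presheaf.map (homOfLE inf_le_right).op (b 1) with huudef
  set vv : Γ(V, U ⊓ W) := V.presheaf.map (homOfLE inf_le_right).op (b 2) with hvvdef
  have gyy : V.germToFunctionField (U ⊓ W) yy = y := by
    rw [← hyy]
    exact V.presheaf.germ_res_apply (homOfLE (inf_le_left : U ⊓ W ≤ U)) (genericPoint V)
      ⟨hgU, hgW⟩ y'
  have gxx : V.germToFunctionField (U ⊓ W) xx = x := by
    have := hb 0
    simp only [Matrix.cons_val_zero] at this
    rw [← this]
    exact V.presheaf.germ_res_apply (homOfLE (inf_le_right : U ⊓ W ≤ W)) (genericPoint V)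
      ⟨hgU, hgW⟩ (b 0)
  have guu : V.germToFunctionField (U ⊓ W) uu = u := by
    have := hb 1
    simp only [Matrix.cons_val_one, Matrix.cons_val_zero] at this
    rw [← this]
    exact V.presheaf.germ_res_apply (homOfLE (inf_le_right : U ⊓ W ≤ W)) (genericPoint V)
      ⟨hgU, hgW⟩ (b 1)
  have gvv : V.germToFunctionField (U ⊓ W) vv = v := by
    have := hb 2
    simp only [Matrix.cons_val] at this
    rw [← this]
    exact V.presheaf.germ_res_apply (homOfLE (inf_le_right : U ⊓ W ≤ W)) (genericPoint V)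
      ⟨hgU, hgW⟩ (b 2)
  have hinj := V.germToFunctionField_injective (U ⊓ W)
  have e1 : yy ^ 2 = xx ^ 3 - (n : Γ(V, U ⊓ W)) ^ 2 * xx := by
    apply hinj
    simp only [map_pow, map_sub, map_mul, map_natCast, gyy, gxx]
    exact h1
  have e2 : yy = uu ^ 2 - 2 * vv ^ 2 := by
    apply hinj
    simp only [map_pow, map_sub, map_mul, map_ofNat, gyy, guu, gvv]
    exact h2
  have hunit : IsUnit yy := hyu.map _
  obtain ⟨P, hP, hPs⟩ := hdense.inter_open_nonempty (U ⊓ W : V.Opens) (U ⊓ W).isOpen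
    ⟨genericPoint V, hgU, hgW⟩
  obtain ⟨s, -, hs⟩ := hPs
  obtain ⟨φ⟩ := exists_hom_of_point (K := ℚ) (U ⊓ W) s (by rw [hs]; exact hP)
  have hy0 : φ yy ≠ 0 := (hunit.map φ).ne_zero
  refine no_norm hn adm (x := φ xx) (y := φ yy) (u := φ uu) (v := φ vv) hy0 ?_ ?_
  · rw [← map_pow, e1]; simp
  · have h22 : φ 2 = 2 := map_ofNat φ 2
    conv_lhs => rw [e2]
    rw [map_sub, map_mul, map_pow, map_pow, h22]

end Pool.Agent.Results.MP_2ae8fe_ag.PositiveRankBase
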