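import Pool.Agent.Helper11.Main
import Pool.Agent.Helper11.Geo

/-!
# Double covers of abelian surfaces of positive rank, ramified along an ample divisor

Let `p ≡ 5 (mod 8)` be a prime, `a` an integer with `a² + 4p` prime, and suppose that the curve
`C : t² = s⁴ + a s² - p` has a rational point whose `s`-coordinate is a quotient of odd integers
(for example `p = 5`, `a = -3`, with the point `(3, 7)`).  Then `C` has infinitely many rational
points.  We prove that for `c ∈ {±1, ±2, ±p, ±2p}` every rational point of the double cover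
`c z² = s₂² - s₁²` of `C × C` has `z = 0`.

Outline (`E : y² = x (x² + a x - p)`, `x = s²`, `y = s t`).

* `Descent`, `Height`, `FG`, `Structure`: two-descent and heights give
  `E(ℚ) = ⟨g⟩ × ⟨T⟩`, `T = (0,0)`, and the points of `C` are multiples `n G` of `G = 2 g`.
* `Rep`, `Padic`: `x(nG) = (S_n / N_n)²`; kernels of reduction at all primes; doubling formulas.
* `Gen`: the numerators `S` of the points `2^k G` satisfy `(-1/S) = (p/S) = -1`, and `(2/S)` does
  not depend on `k`.
* `Main`, case 1 (`m`, `n` have different `2`-adic valuations): at every prime dividing the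
  numerator of `2^{v(n)} G` the point `n G` reduces to `T` and `m G` does not, so `-c` is a square
  modulo all these primes; by symmetry also `c` for `2^{v(m)} G`, a contradiction.
* `Main`, case 2 (same valuation): `x(A+B) - x(A-B) = -4 y_A y_B / (x_A - x_B)²` forces the numerator
  of an even multiple of `G` to be a square; `Prod`, `Chain` exclude this by a chain of Jacobi
  symbols.
-/

open AlgebraicGeometry CategoryTheory

namespace Pool.Agent.Results.MP_2ae8fe_ag.RamifiedAbelianCover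

/-- The set `V(ℚ)` of rational points of a scheme `V` over `ℚ`, as a set of points of `V`: the
images of the sections of the structure morphism. -/
def rationalPoints {V : Scheme.{0}} (f : V ⟶ Spec (CommRingCat.of ℚ)) : Set V :=
  {P | ∃ s : Spec (CommRingCat.of ℚ) ⟶ V, s ≫ f = 𝟙 _ ∧ s (IsLocalRing.closedPoint ℚ) = P}

/-- The hypotheses hold for `p = 5`, `a = -3` with the point `(3, 7)`. -/
example : Prime (5 : ℤ) ∧ (0 : ℤ) < 5 ∧ (5 : ℤ) % 8 = 5 ∧ Prime ((-3 : ℤ) ^ 2 + 4 * 5) ∧
    ∃ u v w : ℤ, Odd u ∧ Odd v ∧ w ^ 2 = u ^ 4 + (-3) * u ^ 2 * v ^ 2 - 5 * v ^ 4 := by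
  refine ⟨by norm_num, by norm_num, by norm_num, by norm_num, 3, 1, 7, ⟨1, by norm_num⟩,
    ⟨0, by norm_num⟩, by norm_num⟩

/-- **Main theorem.** Let `p ≡ 5 (mod 8)` be a positive prime and `a` an integer such that
`a² + 4p` is prime and `t² = s⁴ + a s² - p` has a rational point `s = u/v` with `u`, `v` odd, and let
`c ∈ {±1, ±2, ±p, ±2p}`. Let `V` be an integral scheme over `ℚ` whose function field contains
`s₁, t₁, s₂, t₂` and `z ≠ 0` with `tᵢ² = sᵢ⁴ + a sᵢ² - p` and `c z² = s₂² - s₁²`.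
Then `V(ℚ)` is not Zariski dense in `V`. -/
theorem result (a p : ℤ) (hp : Prime p) (hp0 : 0 < p) (hp8 : p % 8 = 5)
    (hq : Prime (a ^ 2 + 4 * p))
    (hC : ∃ u v w : ℤ, Odd u ∧ Odd v ∧ w ^ 2 = u ^ 4 + a * u ^ 2 * v ^ 2 - p * v ^ 4)
    (c : ℤ) (hc : c ∈ ({1, -1, 2, -2, p, -p, 2 * p, -(2 * p)} : Set ℤ))
    (V : Scheme.{0}) [IsIntegral V] (f : V ⟶ Spec (CommRingCat.of ℚ))
    (s₁ t₁ s₂ t₂ z : V.functionField) (hz : z ≠ 0)
    (h₁ : t₁ ^ 2 = s₁ ^ 4 + (a : V.functionField) * s₁ ^ 2 - (p : V.functionField))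
    (h₂ : t₂ ^ 2 = s₂ ^ 4 + (a : V.functionField) * s₂ ^ 2 - (p : V.functionField))
    (h₃ : (c : V.functionField) * z ^ 2 = s₂ ^ 2 - s₁ ^ 2) :
    ¬ Dense (rationalPoints f) := by
  intro hdense
  obtain ⟨u, v, w, ⟨u', hu⟩, ⟨v', hv⟩, hw⟩ := hC
  have hpar : Pool.Agent.Helper11.Par a p :=
    ⟨Int.prime_iff_natAbs_prime.mp hp, hp0, hp8, Int.prime_iff_natAbs_prime.mp hq⟩
  have hadm : Pool.Agent.Helper11.Adm p c := by
    simp only [Set.mem_insert_iff, Set.mem_singleton_iff] at hc
    exact hc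
  obtain ⟨R, _, ι, b, zz, φ, hinj, hb, hzz, hne⟩ :=
    Pool.Agent.Helper11.exists_specialisation f ![s₁, t₁, s₂, t₂] hz hdense
  have b0 : ι (b 0) = s₁ := hb 0
  have b1 : ι (b 1) = t₁ := hb 1
  have b2 : ι (b 2) = s₂ := hb 2
  have b3 : ι (b 3) = t₂ := hb 3
  have e1 : (b 1) ^ 2 = (b 0) ^ 4 + (a : R) * (b 0) ^ 2 - (p : R) := by
    apply hinj
    simp only [map_pow, map_sub, map_add, map_mul, map_intCast, b0, b1]
    exact h₁
  have e2 : (b 3) ^ 2 = (b 2) ^ 4 + (a : R) * (b 2) ^ 2 - (p : R) := by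
    apply hinj
    simp only [map_pow, map_sub, map_add, map_mul, map_intCast, b2, b3]
    exact h₂
  have e3 : (c : R) * zz ^ 2 = (b 2) ^ 2 - (b 0) ^ 2 := by
    apply hinj
    simp only [map_pow, map_sub, map_mul, map_intCast, b0, b2, hzz]
    exact h₃
  apply hne
  refine Pool.Agent.Helper11.arith hpar (u := u) (v := v) (w := w) (by omega) (by omega) hw hadm
    (s₁ := φ (b 0)) (t₁ := φ (b 1)) (s₂ := φ (b 2)) (t₂ := φ (b 3)) (z := φ zz) ?_ ?_ ?_
  · have := congrArg φ e1
    simpa only [map_pow, map_sub, map_add, map_mul, map_intCast] using this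
  · have := congrArg φ e2
    simpa only [map_pow, map_sub, map_add, map_mul, map_intCast] using this
  · have := congrArg φ e3
    simpa only [map_pow, map_sub, map_mul, map_intCast] using this

end Pool.Agent.Results.MP_2ae8fe_ag.RamifiedAbelianCover
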