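import Pool.Agent.Helper13.Lang.Top
import Pool.Agent.Helper13.Lang.NormForm

/-!
# Non-density of rational points over elliptic curves with one rational point of order two

Let `E : y² = x (x² + a x + b)` with integers `a, b`, `b ≠ 0`, and let `r` be a prime not dividing
`b` modulo which `a² - 4 b` is not a square (such `r` exist if and only if `a² - 4 b` is not a
square, that is, if `E` has exactly one rational point of order two).  The rank of `E` is
arbitrary.  For all large `k` no rational point of `E` with `y ≠ 0` has `(y / (r x)) ^ m` a norm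
from the field of `2 ^ (k + 1)`-th roots of unity (`Pool.Agent.Helper13.Lang.no_point`):
write `g = y / x`, so `g² = x + a + b / x`.  The order of each prime `l ≠ 2, r` modulo
`2 ^ (k + 1)` divides `m v_l(g)`, and the order of `r` divides `m (v_r(g) - 1)`; the condition on
`r` gives `v_r(g) < 0`, and after `x ↦ b / x` also `v_r(x) < 0`.  A `2`-adic exactness argument
shows that then `x = h²`, and `(2 h² + a - 2 g h, 2 h)` is a point with the same properties
on the isogenous curve for `(-2 a, a² - 4 b)`.  Heights drop, a contradiction.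
-/

open AlgebraicGeometry CategoryTheory Polynomial

namespace Pool.Agent.Results.MP_2ae8fe_ag.TwoTorsionBase

open Pool.Agent.Helper13.Lang

/-- Finitely many elements of the function field are sections over a common nonempty open set. -/
theorem exists_sections {V : Scheme.{0}} [IsIntegral V] {m : ℕ} (a : Fin m → V.functionField) :
    ∃ (U : V.Opens) (_ : Nonempty U) (b : Fin m → Γ(V, U)),
      ∀ i, V.germToFunctionField U (b i) = a i := by
  induction m with
  | zero =>
    refine ⟨⊤, ⟨⟨genericPoint V, trivial⟩⟩, fun i => i.elim0, fun i => i.elim0⟩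
  | succ m ih =>
    obtain ⟨U, hU, b, hb⟩ := ih (fun i => a i.succ)
    obtain ⟨W, hW, g, hg⟩ := V.presheaf.exists_germ_eq (a 0)
    have hgU : genericPoint V ∈ U :=
      ((genericPoint_spec V).mem_open_set_iff U.isOpen).mpr (by simpa using hU)
    refine ⟨U ⊓ W, ⟨⟨genericPoint V, hgU, hW⟩⟩,
      Fin.cons (V.presheaf.map (homOfLE inf_le_right).op g)
        (fun i => V.presheaf.map (homOfLE inf_le_left).op (b i)), ?_⟩
    intro i
    refine Fin.cases ?_ ?_ i
    · rw [Fin.cons_zero]
      have := V.presheaf.germ_res_apply (homOfLE (inf_le_right : U ⊓ W ≤ W)) (genericPoint V)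
        ⟨hgU, hW⟩ g
      rw [hg] at this
      exact this
    · intro j
      rw [Fin.cons_succ]
      have := V.presheaf.germ_res_apply (homOfLE (inf_le_left : U ⊓ W ≤ U)) (genericPoint V)
        ⟨hgU, hW⟩ (b j)
      rw [← hb j]
      exact this

/-- A `K`-point of a scheme landing in the open set `U` gives a ring homomorphism `Γ(V, U) → K`. -/
theorem exists_hom_of_point {V : Scheme.{0}} {K : Type} [Field K] (U : V.Opens)
    (s : Spec (CommRingCat.of K) ⟶ V) (hs : s (IsLocalRing.closedPoint K) ∈ U) :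
    Nonempty (Γ(V, U) →+* K) := by
  have htop : s ⁻¹ᵁ U = ⊤ := by
    ext x
    have hx : x = IsLocalRing.closedPoint K := Subsingleton.elim _ _
    simp only [hx]
    exact ⟨fun _ => trivial, fun _ => hs⟩
  refine ⟨((Scheme.ΓSpecIso (CommRingCat.of K)).hom.hom).comp
    (((Spec (CommRingCat.of K)).presheaf.map (eqToHom htop.symm).op).hom.comp (s.app U).hom)⟩

/-- The set `V(ℚ)` of rational points of a scheme `V` over `ℚ`, as a set of points of `V`. -/
def rationalPoints {V : Scheme.{0}} (f : V ⟶ Spec (CommRingCat.of ℚ)) : Set V :=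
  {P | ∃ s : Spec (CommRingCat.of ℚ) ⟶ V, s ≫ f = 𝟙 _ ∧ s (IsLocalRing.closedPoint ℚ) = P}

/-- `t` is the norm to `F` of an element of `F[T]/(T ^ n + 1)`. -/
def IsCycNorm {F : Type} [Field F] (n : ℕ) (t : F) : Prop :=
  ∃ z : AdjoinRoot (X ^ n + 1 : F[X]), Algebra.norm F z = t

/-- **Main theorem.** Let `E : y² = x³ + a x² + b x` be an elliptic curve over `ℚ` with exactly one
rational point of order two, `r` a prime not dividing `b` modulo which `a² - 4 b` is not a square
and `m ≥ 1`. For all large `k`, if `V` is an integral scheme over `ℚ` whose function field `F`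
contains `x, y` with `y ≠ 0` and `y² = x³ + a x² + b x` such that `(y / (r x)) ^ m` is a norm from
`F[T]/(T ^ (2 ^ k) + 1) = F ⊗ ℚ(ζ)`, `ζ` a primitive `2 ^ (k + 1)`-th root of unity, then `V(ℚ)` is
not Zariski dense in `V`. -/
theorem result (a b : ℤ) (hb : b ≠ 0) (r : ℕ) [Fact r.Prime] (hrb : ¬ (r : ℤ) ∣ b)
    (hr : legendreSym r (a ^ 2 - 4 * b) = -1) (m : ℕ) (hm : 0 < m) :
    ∃ k₀ : ℕ, ∀ k ≥ k₀, ∀ (V : Scheme.{0}) [IsIntegral V] (f : V ⟶ Spec (CommRingCat.of ℚ))
      (x y t : V.functionField), y ≠ 0 →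
      y ^ 2 = x ^ 3 + (a : V.functionField) * x ^ 2 + (b : V.functionField) * x →
      y ^ m = ((r : V.functionField) * x) ^ m * t → IsCycNorm (2 ^ k) t →
      ¬ Dense (rationalPoints f) := by
  obtain ⟨J, hJ⟩ := no_point a b hb r hrb hr m hm
  refine ⟨J, fun k hk V _ f x y t hy h1 h2 hzt hdense => ?_⟩
  obtain ⟨z, rfl⟩ := hzt
  obtain ⟨c, hc⟩ := exists_NF_adjoinRoot (F := V.functionField) (d := 2 ^ k) (by positivity) z
  obtain ⟨U, hU, y', hUne, hyy, hyu⟩ := exists_isUnit_germ_eq V y hy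
  obtain ⟨W, hWne, s, hs⟩ := exists_sections (V := V) (Fin.cons x c : Fin (2 ^ k + 1) → V.functionField)
  have hgU : genericPoint V ∈ U :=
    ((genericPoint_spec V).mem_open_set_iff U.isOpen).mpr (by simpa using hUne)
  have hgW : genericPoint V ∈ W :=
    ((genericPoint_spec V).mem_open_set_iff W.isOpen).mpr (by simpa using hWne)
  have hne : Nonempty (U ⊓ W : V.Opens) := ⟨⟨genericPoint V, hgU, hgW⟩⟩
  set yy : Γ(V, U ⊓ W) := V.presheaf.map (homOfLE inf_le_left).op y' with hyydef
  set ss : Fin (2 ^ k + 1) → Γ(V, U ⊓ W) :=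
    fun i => V.presheaf.map (homOfLE inf_le_right).op (s i) with hssdef
  have gyy : V.germToFunctionField (U ⊓ W) yy = y := by
    rw [← hyy]
    exact V.presheaf.germ_res_apply (homOfLE (inf_le_left : U ⊓ W ≤ U)) (genericPoint V)
      ⟨hgU, hgW⟩ y'
  have gss : ∀ i, V.germToFunctionField (U ⊓ W) (ss i) =
      (Fin.cons x c : Fin (2 ^ k + 1) → V.functionField) i := by
    intro i
    rw [← hs i]
    exact V.presheaf.germ_res_apply (homOfLE (inf_le_right : U ⊓ W ≤ W)) (genericPoint V)
      ⟨hgU, hgW⟩ (s i)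
  have gx : V.germToFunctionField (U ⊓ W) (ss 0) = x := by
    rw [gss]; rfl
  have gc : ∀ i : Fin (2 ^ k), V.germToFunctionField (U ⊓ W) (ss i.succ) = c i := by
    intro i
    rw [gss]; rfl
  have hinj := V.germToFunctionField_injective (U ⊓ W)
  have e1 : yy ^ 2 = ss 0 ^ 3 + (a : Γ(V, U ⊓ W)) * ss 0 ^ 2 + (b : Γ(V, U ⊓ W)) * ss 0 := by
    apply hinj
    simp only [map_pow, map_add, map_mul, map_intCast, gyy, gx]
    exact h1
  have hNF : NF V.functionField (2 ^ k) c =
      V.germToFunctionField (U ⊓ W) (NF Γ(V, U ⊓ W) (2 ^ k) (fun i => ss i.succ)) := by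
    have := NF_map (V.germToFunctionField (U ⊓ W)).hom (2 ^ k) (fun i => ss i.succ)
    rw [show (V.germToFunctionField (U ⊓ W)) (NF Γ(V, U ⊓ W) (2 ^ k) (fun i => ss i.succ)) =
      (V.germToFunctionField (U ⊓ W)).hom (NF Γ(V, U ⊓ W) (2 ^ k) (fun i => ss i.succ)) from rfl, this]
    congr 1
    ext i
    exact (gc i).symm
  have e2 : yy ^ m = ((r : Γ(V, U ⊓ W)) * ss 0) ^ m * NF Γ(V, U ⊓ W) (2 ^ k) (fun i => ss i.succ) := by
    apply hinj
    simp only [map_pow, map_mul, map_natCast, gyy, gx]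
    rw [h2, hc, hNF]
  have hunit : IsUnit yy := hyu.map _
  obtain ⟨P, hP, hPs⟩ := hdense.inter_open_nonempty (U ⊓ W : V.Opens) (U ⊓ W).isOpen
    ⟨genericPoint V, hgU, hgW⟩
  obtain ⟨q, -, hq⟩ := hPs
  obtain ⟨φ⟩ := exists_hom_of_point (K := ℚ) (U ⊓ W) q (by rw [hq]; exact hP)
  have hy0 : φ yy ≠ 0 := (hunit.map φ).ne_zero
  have hNZ : NeZero (((2 ^ (k + 1) : ℕ)) : ℚ) := ⟨by positivity⟩
  have hcyc : IsCyclotomicExtension {2 ^ (k + 1)} ℚ (CyclotomicField (2 ^ (k + 1)) ℚ) :=
    CyclotomicField.isCyclotomicExtension (2 ^ (k + 1)) ℚ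
  obtain ⟨w, hw⟩ := exists_norm_eq_NF k (CyclotomicField (2 ^ (k + 1)) ℚ) (fun i => φ (ss i.succ))
  have hNumF : NumberField (CyclotomicField (2 ^ (k + 1)) ℚ) :=
    IsCyclotomicExtension.numberField {2 ^ (k + 1)} ℚ _
  refine hJ (k + 1) (by omega) (CyclotomicField (2 ^ (k + 1)) ℚ) (φ (ss 0)) (φ yy) w hy0 ?_ ?_
  · rw [← map_pow, e1]; simp
  · rw [hw, ← map_pow, e2, map_mul, NF_map, map_pow, map_mul, map_natCast]

end Pool.Agent.Results.MP_2ae8fe_ag.TwoTorsionBase
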